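import Pool.Agent.H773.LK.Spec3

/-!
# LK-TRI: the trace identity
-/

set_option autoImplicit false

noncomputable section

namespace Pool.Agent.H200.LK

open MeasureTheory Filter Topology Set
open scoped ENNReal NNReal ComplexConjugate InnerProductSpace SchwartzMap FourierTransform
open Pool.Agent.H773.LK

theorem t_TRI (hYAD : S_YAD) (hZAK : S_ZAK) : S_TRI := by
  intro γ a L M e₁ e₂ X y hC hM Ys hYs YY hYY v hv φ ψ
  have ha : 0 < a := hC.a_pos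
  obtain ⟨hZ1, hZ2⟩ := hZAK γ a L e₁ e₂ X y hC
  have hcrv := hC.crv
  -- the fibre values
  have key : ∀ φ : Sc, ∀ᵐ θ ∂m01, ((YY (v φ) θ : EL L) : ℝ → ℂ)
      =ᵐ[volume.restrict (Ioc (0 : ℝ) L)]
        fun s => (((√a)⁻¹ : ℝ) : ℂ) * Zk a e₁ e₂ X y φ θ s := by
    intro φ
    have h0 : ∀ᵐ θ ∂m01, θ ∈ Ioo (0 : ℝ) 1 := ae_restrict_mem measurableSet_Ioo
    filter_upwards [h0, hYY (v φ), hv φ] with θ hθ h1 h2
    rw [h1]
    have hint : Integrable (fun ξ => (((√a)⁻¹ : ℝ) : ℂ) * 𝓕 φ (Pt a e₁ e₂ θ ξ)) mZR :=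
      ((hZ1 φ).1 θ hθ).const_mul _
    have h3 := hYAD L (2 * Real.pi / a) X y hcrv M θ (Ys θ) hM (hYs θ hθ.1 hθ.2) (v φ θ)
      (fun ξ => (((√a)⁻¹ : ℝ) : ℂ) * 𝓕 φ (Pt a e₁ e₂ θ ξ)) hint h2
    filter_upwards [h3] with s hs
    rw [hs]
    unfold Zk
    rw [← integral_const_mul]
    refine integral_congr_ae (Eventually.of_forall fun ξ => ?_)
    simp only
    ring
  have hr : (((√a)⁻¹ : ℝ) : ℂ) * (((√a)⁻¹ : ℝ) : ℂ) * (a : ℂ) ^ 2 = (a : ℂ) := by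
    have h1 : (√a)⁻¹ * (√a)⁻¹ * a ^ 2 = a := by
      have h2 : √a * √a = a := Real.mul_self_sqrt ha.le
      have h3 : (√a)⁻¹ * (√a)⁻¹ = a⁻¹ := by rw [← mul_inv, h2]
      rw [h3]
      field_simp
    exact_mod_cast h1
  rw [L2.inner_def]
  have e1 : ∫ θ, ⟪YY (v φ) θ, YY (v ψ) θ⟫_ℂ ∂m01 =
      ∫ θ in Ioo (0 : ℝ) 1, ((((√a)⁻¹ : ℝ) : ℂ) * (((√a)⁻¹ : ℝ) : ℂ)) *
        ∫ s in Ioc (0 : ℝ) L, conj (Zk a e₁ e₂ X y φ θ s) * Zk a e₁ e₂ X y ψ θ s := by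
    refine integral_congr_ae ?_
    filter_upwards [key φ, key ψ] with θ h1 h2
    rw [L2.inner_def, ← integral_const_mul]
    refine integral_congr_ae ?_
    filter_upwards [h1, h2] with s h3 h4
    rw [h3, h4]
    simp only [RCLike.inner_apply, map_mul, Complex.conj_ofReal]
    ring
  rw [e1, integral_const_mul, ← hZ2 φ ψ, ← mul_assoc, hr]

end Pool.Agent.H200.LK
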